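import Mathlib
import Pool.Agent.Y626.WE.Lib

set_option autoImplicit false

/-!
# A decidable language immune to word equations with constraints of subexponential growth

The formulas are Boolean combinations of word equations, regular constraints, linear length
constraints, and of arbitrary conditions (not necessarily decidable) on the images of the variables
under a homomorphism `F` from the free monoid, provided that the number of images of words of length
`l` is `2 ^ (o(l))`: for example lengths, Parikh vectors, numbers of scattered subwords, images in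
groups of polynomial or intermediate growth.
-/

namespace Pool.Agent.Results.MP_cb6225_lc.SubexponentialGrowth

open Pool.Agent.Y626.WE

/-- Polynomial growth is subexponential. -/
theorem subexp_poly {α M : Type} (F : List α → M) (e : ℕ)
    (h : ∀ l, Set.ncard (F '' {w : List α | w.length = l}) ≤ (l + 1) ^ e) : Subexp F := by
  intro m
  have h1 := (tendsto_pow_const_div_const_pow_of_one_lt (e * m)
    (show (1 : ℝ) < 2 by norm_num)).comp (Filter.tendsto_add_atTop_nat 1)
  have h2 := h1.eventually (gt_mem_nhds (show (0 : ℝ) < 1 / 2 by norm_num))
  filter_upwards [h2] with l hl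
  refine (Nat.pow_le_pow_left (h l) m).trans ?_
  rw [← pow_mul]
  simp only [Function.comp] at hl
  rw [div_lt_iff₀ (by positivity)] at hl
  have h3 : (((l + 1) ^ (e * m) : ℕ) : ℝ) ≤ ((2 ^ l : ℕ) : ℝ) := by
    push_cast at hl ⊢
    have h4 : (2 : ℝ) ^ (l + 1) = 2 * 2 ^ l := by ring
    rw [h4] at hl
    linarith
  exact_mod_cast h3

/-- Parikh vectors have subexponential growth. -/
theorem subexp_parikh (k : ℕ) :
    Subexp (fun (w : List (Fin k)) (c : Fin k) => w.count c) := by
  refine subexp_poly _ k fun l => ?_
  have h1 : (fun (w : List (Fin k)) (c : Fin k) => w.count c) '' {w | w.length = l} ⊆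
      ((Fintype.piFinset (fun _ : Fin k => Finset.range (l + 1)) : Finset (Fin k → ℕ)) :
        Set (Fin k → ℕ)) := by
    rintro _ ⟨w, hw, rfl⟩
    rw [Finset.mem_coe, Fintype.mem_piFinset]
    intro c
    rw [Finset.mem_range]
    have := List.count_le_length (a := c) (l := w)
    rw [Set.mem_setOf_eq] at hw
    show w.count c < l + 1
    omega
  refine (Set.ncard_le_ncard h1 (Finset.finite_toSet _)).trans ?_
  rw [Set.ncard_coe_finset, Fintype.card_piFinset_const, Finset.card_range]

/-- For every finite alphabet with at least two letters there is an infinite, primitive recursive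
language `L` such that every language `S f x` contained in `L` is finite; in particular `L` is
different from all languages `S f x`. The growth condition is satisfied by polynomial growth, in
particular by Parikh vectors. -/
theorem result :
    (∀ k : ℕ, 2 ≤ k → ∃ L : Set (List (Fin k)), L.Infinite ∧ PrimrecPred (fun w => w ∈ L) ∧
      ComputablePred (fun w => w ∈ L) ∧
      ∀ (f : Formula (Fin k)) (x : ℕ), L ≠ S f x ∧ (S f x ⊆ L → (S f x).Finite)) ∧
    (∀ (α M : Type) (F : List α → M) (e : ℕ),
      (∀ l, Set.ncard (F '' {w : List α | w.length = l}) ≤ (l + 1) ^ e) → Subexp F) ∧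
    (∀ k : ℕ, Subexp (fun (w : List (Fin k)) (c : Fin k) => w.count c)) := by
  refine ⟨fun k hk => ?_, fun α M F e h => subexp_poly F e h, subexp_parikh⟩
  have hab : (⟨0, by omega⟩ : Fin k) ≠ ⟨1, by omega⟩ := by
    intro h
    simp at h
  refine ⟨Lang ⟨0, by omega⟩ ⟨1, by omega⟩, lang_infinite _ _, lang_primrec hab,
    (lang_primrec hab).computablePred, fun f x => ⟨?_, lang_fin hab f x⟩⟩
  intro h
  exact (h ▸ lang_infinite _ _ : (S f x).Infinite) (lang_fin hab f x h.symm.subset)

end Pool.Agent.Results.MP_cb6225_lc.SubexponentialGrowth
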